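import Pool.Agent.Helper67.MV.Main

set_option autoImplicit false

namespace Pool.Agent.Helper67.MV

open Finset Filter Topology

lemma pow_lt_two_pow (q : ℕ) (hq : 128 ≤ q) : q ^ 16 < 2 ^ q := by
  induction q, hq using Nat.le_induction with
  | base => norm_num
  | succ q hq ih =>
    have h1 : 128 * (q + 1) ≤ 129 * q := by omega
    have h2 : (128 * (q + 1)) ^ 16 ≤ (129 * q) ^ 16 := Nat.pow_le_pow_left h1 16
    rw [mul_pow, mul_pow] at h2
    have h3 : (129 : ℕ) ^ 16 ≤ 2 * 128 ^ 16 := by norm_num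
    have h4 : 128 ^ 16 * (q + 1) ^ 16 ≤ 128 ^ 16 * (2 * q ^ 16) := by
      calc 128 ^ 16 * (q + 1) ^ 16 ≤ 129 ^ 16 * q ^ 16 := h2
        _ ≤ 2 * 128 ^ 16 * q ^ 16 := Nat.mul_le_mul_right _ h3
        _ = _ := by ring
    have h5 : (q + 1) ^ 16 ≤ 2 * q ^ 16 := Nat.le_of_mul_le_mul_left h4 (by positivity)
    rw [pow_succ 2 q]
    omega

/-- explicit form: under a mild condition on `n`. -/
lemma mv_of (n : ℕ) (hn : 1 ≤ Real.log n) (hn2 : 4 * (2000 : ℝ) ^ 2 * (Real.log n) ^ 4 ≤ n) :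
    ∃ N : ℕ, (n : ℝ) ^ 3 / (2 * 10 ^ 10 * (Real.log n) ^ 4) ≤ N ∧
      ∃ H : SimpleGraph (Fin N), H.CliqueFree 4 ∧ ∀ s : Finset (Fin N), s.card = n →
        ¬ H.IsIndepSet (s : Set (Fin N)) := by
  set ℓ := Real.log n with hℓ
  have hℓ2 : 1 ≤ ℓ ^ 2 := one_le_pow₀ hn
  have hℓ4 : ℓ ^ 4 = ℓ ^ 2 * ℓ ^ 2 := by ring
  have hnpos : (0 : ℝ) < n := by
    have : (1 : ℝ) ≤ ℓ ^ 4 := one_le_pow₀ hn
    nlinarith
  set y : ℝ := n / (2000 * ℓ ^ 2) with hy
  have hyy : y * (2000 * ℓ ^ 2) = n := by rw [hy]; field_simp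
  have hy8 : 8000 ≤ y := by
    rw [hy, le_div_iff₀ (by positivity)]
    nlinarith
  have hny : (n : ℝ) ≤ (y / 2) ^ 2 := by
    have h1 : (y / 2) ^ 2 = n * (n / (4 * 2000 ^ 2 * ℓ ^ 4)) := by
      rw [hy]; field_simp; ring
    rw [h1]
    have h2 : 1 ≤ n / (4 * 2000 ^ 2 * ℓ ^ 4) := by
      rw [le_div_iff₀ (by positivity), one_mul]; exact hn2
    nlinarith
  set Q : ℕ := ⌊y⌋₊ with hQ
  have hQ1 : (Q : ℝ) ≤ y := Nat.floor_le (by linarith)
  have hQ2 : y < Q + 1 := Nat.lt_floor_add_one y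
  have hQ3 : 200 ≤ Q := by
    have : (200 : ℝ) ≤ Q := by linarith
    exact_mod_cast this
  obtain ⟨q, hqp, hq1, hq2⟩ := Nat.exists_prime_lt_and_le_two_mul Q (by omega)
  haveI : Fact q.Prime := ⟨hqp⟩
  have hq1' : (Q : ℝ) + 1 ≤ q := by exact_mod_cast hq1
  have hq2' : (q : ℝ) ≤ 2 * Q := by exact_mod_cast hq2
  have hqy : y ≤ q := by linarith
  have hq2y : (q : ℝ) ≤ 2 * y := by linarith
  have hqpos : (0 : ℝ) < q := by linarith
  have hqn : (q : ℝ) ≤ n := by
    have : 2 * y ≤ y * (2000 * ℓ ^ 2) := by nlinarith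
    linarith
  have hlogq : Real.log q ≤ ℓ := Real.log_le_log hqpos hqn
  have hlogq1 : 1 ≤ Real.log q := by
    rw [Real.le_log_iff_exp_le hqpos]
    have := Real.exp_one_lt_d9
    linarith
  set r : ℕ := ⌈32 * q * Real.log q⌉₊ with hr
  have hr1 : 32 * q * Real.log q ≤ r := Nat.le_ceil _
  have hr2 : (r : ℝ) ≤ 33 * q * ℓ := by
    have h1 : (r : ℝ) < 32 * q * Real.log q + 1 := Nat.ceil_lt_add_one (by positivity)
    have h2 : 32 * q * Real.log q ≤ 32 * q * ℓ := by gcongr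
    have h3 : 1 ≤ q * ℓ := by nlinarith
    nlinarith
  have hrn : (r : ℝ) * ℓ ≤ 33 * n / 1000 := by
    calc (r : ℝ) * ℓ ≤ 33 * q * ℓ * ℓ := by gcongr
      _ = 33 * (ℓ ^ 2 * q) := by ring
      _ ≤ 33 * (ℓ ^ 2 * (2 * y)) := by gcongr
      _ = 33 * (y * (2000 * ℓ ^ 2)) / 1000 := by ring
      _ = 33 * n / 1000 := by rw [hyy]
  have hrn' : (r : ℝ) ≤ 33 * n / 1000 := by
    have : (0 : ℝ) ≤ r := Nat.cast_nonneg r
    nlinarith
  set N : ℕ := n * q ^ 2 / 256 with hN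
  have h := mv_prime q (pow_lt_two_pow q (by omega)) r n N ?_ ?_ ?_ ?_ ?_
  · refine ⟨N, ?_, h⟩
    have h1 : (n : ℝ) * q ^ 2 < 256 * (N + 1) := by
      have : n * q ^ 2 < 256 * (n * q ^ 2 / 256 + 1) := by
        have := Nat.div_add_mod (n * q ^ 2) 256
        have := Nat.mod_lt (n * q ^ 2) (by norm_num : 256 > 0)
        omega
      rw [← hN] at this
      exact_mod_cast this
    have h2 : (n : ℝ) * y ^ 2 ≤ n * q ^ 2 := by gcongr
    have h3 : (n : ℝ) * y ^ 2 = n ^ 3 / (4 * 10 ^ 6 * ℓ ^ 4) := by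
      rw [hy]; field_simp; ring
    have h4 : (n : ℝ) ^ 3 / (2 * 10 ^ 10 * ℓ ^ 4) = (n * y ^ 2) / 5000 := by
      rw [h3]; field_simp; ring
    rw [h4]
    have h5 : (10 : ℝ) ^ 6 ≤ n * y ^ 2 := by
      have hn1 : (8000 : ℝ) ≤ n := by linarith
      nlinarith
    linarith
  · -- shrinking
    have h1 : (1 - 1 / (16 * (q : ℝ))) ^ r ≤ Real.exp (-(1 / (16 * q)) * r) := by
      calc (1 - 1 / (16 * (q : ℝ))) ^ r ≤ (Real.exp (-(1 / (16 * (q : ℝ))))) ^ r := by
            apply pow_le_pow_left₀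
            · rw [sub_nonneg, div_le_one (by positivity)]; linarith
            · have := Real.add_one_le_exp (-(1 / (16 * (q : ℝ))))
              linarith
        _ = _ := by rw [← Real.exp_nat_mul]; ring_nf
    have h2 : Real.exp (-(1 / (16 * q)) * r) ≤ Real.exp (-(2 * Real.log q)) := by
      apply Real.exp_le_exp.2
      have h3 : 2 * Real.log q ≤ 1 / (16 * q) * r := by
        rw [one_div, ← div_eq_inv_mul, le_div_iff₀ (by positivity)]
        linarith
      linarith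
    have h3 : Real.exp (-(2 * Real.log q)) = 1 / (q : ℝ) ^ 2 := by
      rw [Real.exp_neg, two_mul, Real.exp_add, Real.exp_log hqpos, one_div, sq]
    calc (q : ℝ) ^ 4 * (1 - 1 / (16 * q)) ^ r ≤ (q : ℝ) ^ 4 * (1 / (q : ℝ) ^ 2) := by
          rw [h3] at h2
          gcongr
          exact h1.trans h2
      _ = (q : ℝ) ^ 2 := by field_simp
      _ ≤ 8 * q ^ 2 := by nlinarith [sq_nonneg (q : ℝ)]
  · have : (2 * r : ℝ) ≤ n := by linarith
    exact_mod_cast this
  · rw [hN]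
    have := Nat.div_mul_le_self (n * q ^ 2) 256
    omega
  · have h1 : (n : ℝ) ≤ q ^ 2 := by
      calc (n : ℝ) ≤ (y / 2) ^ 2 := hny
        _ ≤ q ^ 2 := by
          apply pow_le_pow_left₀ (by linarith)
          linarith
    exact_mod_cast h1
  · -- the big inequality
    have h1 : (r + 1 : ℝ) ≤ Real.exp r := Real.add_one_le_exp _
    have h2 : (q : ℝ) ^ (4 * r) = Real.exp (4 * r * Real.log q) := by
      rw [← Real.exp_log hqpos, ← Real.exp_nat_mul, Real.log_exp]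
      push_cast
      ring_nf
    have h3 : (2 : ℝ) ^ (n / 2) = Real.exp ((n / 2 : ℕ) * Real.log 2) := by
      rw [mul_comm, Real.exp_mul, Real.exp_log (by norm_num), Real.rpow_natCast]
    rw [h2, h3]
    calc (r + 1 : ℝ) * Real.exp (4 * r * Real.log q) ≤ Real.exp r * Real.exp (4 * r * Real.log q) := by
          gcongr
      _ = Real.exp (r + 4 * r * Real.log q) := by rw [← Real.exp_add]
      _ < Real.exp ((n / 2 : ℕ) * Real.log 2) := by
          apply Real.exp_lt_exp.2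
          have h4 : (n : ℝ) / 2 - 1 ≤ (n / 2 : ℕ) := by
            have : n ≤ 2 * (n / 2) + 1 := by omega
            have : (n : ℝ) ≤ 2 * (n / 2 : ℕ) + 1 := by exact_mod_cast this
            linarith
          have h5 := Real.log_two_gt_d9
          have h6 : (r : ℝ) * Real.log q ≤ r * ℓ := by gcongr
          have h7 : (0.69 : ℝ) * (n / 2 - 1) ≤ (n / 2 : ℕ) * Real.log 2 := by
            have hn1 : (8000 : ℝ) ≤ n := by linarith
            have h8 : (0.69 : ℝ) * (n / 2 - 1) ≤ Real.log 2 * (n / 2 - 1) := by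
              apply mul_le_mul_of_nonneg_right
              · linarith
              · linarith
            have h9 : Real.log 2 * (n / 2 - 1) ≤ Real.log 2 * (n / 2 : ℕ) := by
              apply mul_le_mul_of_nonneg_left h4
              linarith
            linarith
          have hn1 : (8000 : ℝ) ≤ n := by linarith
          nlinarith

/-- **Mattheus–Verstraete**: `r(4, n) ≥ c n³ / log⁴ n`. -/
theorem mattheus_verstraete : ∃ c : ℝ, 0 < c ∧ ∀ᶠ n : ℕ in atTop, ∃ N : ℕ,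
    c * ((n : ℝ) ^ 3 / (Real.log n) ^ 4) ≤ N ∧
      ∃ H : SimpleGraph (Fin N), H.CliqueFree 4 ∧ ∀ s : Finset (Fin N), s.card = n →
        ¬ H.IsIndepSet (s : Set (Fin N)) := by
  refine ⟨1 / (2 * 10 ^ 10), by positivity, ?_⟩
  have h1 : ∀ᶠ x : ℝ in atTop, 4 * (2000 : ℝ) ^ 2 * (Real.log x) ^ 4 ≤ x := by
    have h2 := (Real.isLittleO_pow_log_id_atTop (n := 4)).bound
      (show (0 : ℝ) < 1 / (4 * 2000 ^ 2) by positivity)
    filter_upwards [h2, eventually_ge_atTop 0] with x hx hx0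
    rw [Real.norm_of_nonneg (by positivity), id, Real.norm_of_nonneg hx0] at hx
    calc 4 * (2000 : ℝ) ^ 2 * (Real.log x) ^ 4 ≤ 4 * (2000 : ℝ) ^ 2 * (1 / (4 * 2000 ^ 2) * x) := by
          gcongr
      _ = x := by ring
  have h3 := tendsto_natCast_atTop_atTop (R := ℝ) |>.eventually h1
  have h4 : ∀ᶠ n : ℕ in atTop, 1 ≤ Real.log n :=
    (Real.tendsto_log_atTop.comp (tendsto_natCast_atTop_atTop (R := ℝ))).eventually_ge_atTop 1
  filter_upwards [h3, h4] with n hn hn1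
  obtain ⟨N, hN, H, hH⟩ := mv_of n hn1 hn
  refine ⟨N, ?_, H, hH⟩
  refine le_trans (le_of_eq ?_) hN
  have : (0 : ℝ) < Real.log n := by linarith
  field_simp

end Pool.Agent.Helper67.MV
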