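import Mathlib

set_option autoImplicit false

namespace Pool.Agent.Helper67.MV

open Finset

section
variable {V P : Type} [Fintype V] [Fintype P] [DecidableEq V] [DecidableEq P]

/-- the colour graph -/
def colG (inc : P → V → Prop) (c : P → V → Bool) : SimpleGraph V where
  Adj v w := v ≠ w ∧ ∃ p, inc p v ∧ inc p w ∧ c p v ≠ c p w
  symm := ⟨fun v w h => ⟨h.1.symm, by
    obtain ⟨p, h1, h2, h3⟩ := h.2
    exact ⟨p, h2, h1, h3.symm⟩⟩⟩
  loopless := ⟨fun v h => h.1 rfl⟩

/-- functions constant on `Y` are few. -/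
lemma card_mono (Y : Finset V) :
    ((univ : Finset (V → Bool)).filter (fun g => ∀ v ∈ Y, ∀ w ∈ Y, g v = g w)).card * 2 ^ Y.card ≤
      2 * 2 ^ Fintype.card V := by
  classical
  have h1 : ((univ : Finset (V → Bool)).filter (fun g => ∀ v ∈ Y, ∀ w ∈ Y, g v = g w)) ⊆
      (univ : Finset Bool).biUnion (fun b => Fintype.piFinset (fun v => if v ∈ Y then {b} else univ)) := by
    intro g hg
    simp only [mem_filter, mem_univ, true_and] at hg
    rw [mem_biUnion]
    rcases Y.eq_empty_or_nonempty with hY | ⟨y, hy⟩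
    · exact ⟨true, mem_univ _, by simp [hY]⟩
    · refine ⟨g y, mem_univ _, ?_⟩
      rw [Fintype.mem_piFinset]
      intro v
      by_cases hv : v ∈ Y
      · rw [if_pos hv, mem_singleton]; exact hg v hv y hy
      · rw [if_neg hv]; exact mem_univ _
  have h2 : ∀ b : Bool, (Fintype.piFinset (fun v => if v ∈ Y then ({b} : Finset Bool) else univ)).card
      = 2 ^ (Fintype.card V - Y.card) := by
    intro b
    rw [Fintype.card_piFinset]
    have : ∀ v : V, (if v ∈ Y then ({b} : Finset Bool) else univ).card =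
        if v ∈ Y then 1 else 2 := by
      intro v; split_ifs <;> simp
    simp_rw [this]
    rw [prod_ite]
    simp only [prod_const_one, one_mul, prod_const]
    congr 1
    rw [filter_not, filter_mem_eq_inter, univ_inter, card_sdiff_of_subset (subset_univ _), card_univ]
  have h3 : ((univ : Finset (V → Bool)).filter (fun g => ∀ v ∈ Y, ∀ w ∈ Y, g v = g w)).card ≤
      2 * 2 ^ (Fintype.card V - Y.card) := by
    refine (card_le_card h1).trans (card_biUnion_le.trans ?_)
    simp_rw [h2]
    simp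
  calc _ ≤ 2 * 2 ^ (Fintype.card V - Y.card) * 2 ^ Y.card := Nat.mul_le_mul_right _ h3
    _ = 2 * 2 ^ Fintype.card V := by
      rw [mul_assoc, ← pow_add]
      congr 2
      have := card_le_univ Y
      omega

variable (inc : P → V → Prop) [∀ p v, Decidable (inc p v)]

/-- the part of `X` through `p`. -/
def at_ (X : Finset V) (p : P) : Finset V := X.filter (fun v => inc p v)

/-- the colourings which are constant at all points of `F`. -/
lemma card_monoF (X : Finset V) (F : Finset P) :
    ((univ : Finset (P → V → Bool)).filter (fun c => ∀ p ∈ F, ∀ v ∈ at_ inc X p,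
      ∀ w ∈ at_ inc X p, c p v = c p w)).card * 2 ^ (∑ p ∈ F, (at_ inc X p).card) ≤
      2 ^ F.card * Fintype.card (P → V → Bool) := by
  classical
  have h1 : ((univ : Finset (P → V → Bool)).filter (fun c => ∀ p ∈ F, ∀ v ∈ at_ inc X p,
      ∀ w ∈ at_ inc X p, c p v = c p w)) = Fintype.piFinset (fun p => if p ∈ F then
        (univ : Finset (V → Bool)).filter (fun g => ∀ v ∈ at_ inc X p, ∀ w ∈ at_ inc X p, g v = g w)
        else univ) := by
    ext c
    rw [Fintype.mem_piFinset]
    simp only [mem_filter, mem_univ, true_and]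
    constructor
    · intro h p
      by_cases hp : p ∈ F
      · rw [if_pos hp]
        simp only [mem_filter, mem_univ, true_and]
        exact h p hp
      · rw [if_neg hp]; exact mem_univ _
    · intro h p hp
      have := h p
      rw [if_pos hp] at this
      simpa only [mem_filter, mem_univ, true_and] using this
  rw [h1, Fintype.card_piFinset, ← prod_pow_eq_pow_sum, Fintype.card_pi, ← prod_const]
  have h2 : ∏ p ∈ F, 2 ^ (at_ inc X p).card = ∏ p : P, if p ∈ F then 2 ^ (at_ inc X p).card else 1 := by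
    rw [prod_ite_mem, univ_inter]
  have h3 : ∏ _x ∈ F, 2 = ∏ p : P, if p ∈ F then 2 else 1 := by
    rw [prod_ite_mem, univ_inter]
  rw [h2, h3, ← prod_mul_distrib, ← prod_mul_distrib]
  refine prod_le_prod' fun p _ => ?_
  by_cases hp : p ∈ F
  · simp only [if_pos hp]
    refine (card_mono (at_ inc X p)).trans ?_
    simp
  · simp only [if_neg hp]
    simp

/-- points at which the colouring is constant on `X`. -/
noncomputable def monoSet (c : P → V → Bool) (X : Finset V) : Finset P := by
  classical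
  exact univ.filter (fun p => ∀ v ∈ at_ inc X p, ∀ w ∈ at_ inc X p, c p v = c p w)

open Classical in
/-- the degree sum of the colour graph inside `X`. -/
noncomputable def degSum (G : SimpleGraph V) (X : Finset V) : ℕ :=
  ∑ v ∈ X, (X.filter (fun w => G.Adj v w)).card

lemma sum_at (X : Finset V) (q : ℕ) (hline : ∀ v, (univ.filter (fun p => inc p v)).card = q + 1) :
    ∑ p, (at_ inc X p).card = (q + 1) * X.card := by
  have h1 : ∑ p, (at_ inc X p).card = ∑ p, ∑ v ∈ X, if inc p v then 1 else 0 := by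
    refine sum_congr rfl fun p _ => ?_
    rw [at_, card_filter]
  rw [h1, sum_comm]
  have h2 : ∀ v ∈ X, ∑ p : P, (if inc p v then 1 else 0) = q + 1 := by
    intro v _
    rw [← card_filter]; exact hline v
  rw [sum_congr rfl h2, sum_const, smul_eq_mul, mul_comm]

lemma deg_lower (huniq : ∀ (p p' : P) (v w : V), v ≠ w → inc p v → inc p w → inc p' v → inc p' w → p = p')
    (c : P → V → Bool) (X : Finset V) :
    ∑ p ∈ univ \ monoSet inc c X, (at_ inc X p).card ≤ degSum (colG inc c) X := by
  classical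
  have h1 : ∀ p ∈ univ \ monoSet inc c X, ∀ v ∈ at_ inc X p, ∃ w ∈ at_ inc X p, c p v ≠ c p w := by
    intro p hp v hv
    rw [mem_sdiff] at hp
    by_contra hcon
    push Not at hcon
    apply hp.2
    unfold monoSet
    simp only [mem_filter, mem_univ, true_and]
    intro a ha b hb
    rw [← hcon a ha, ← hcon b hb]
  choose! opp ho1 ho2 using h1
  unfold degSum
  rw [← card_sigma, ← card_sigma]
  refine card_le_card_of_injOn (fun x => ⟨x.2, opp x.1 x.2⟩) ?_ ?_
  · rintro ⟨p, v⟩ hx
    simp only [coe_sigma, Set.mem_sigma_iff, mem_coe] at hx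
    obtain ⟨hp, hv⟩ := hx
    have h2 := ho1 p hp v hv
    have h3 := ho2 p hp v hv
    unfold at_ at hv h2
    rw [mem_filter] at hv h2
    simp only [coe_sigma, Set.mem_sigma_iff, mem_coe, mem_filter]
    refine ⟨hv.1, h2.1, ?_, p, hv.2, h2.2, h3⟩
    intro h4
    apply h3
    rw [← h4]
  · rintro ⟨p, v⟩ hx ⟨p', v'⟩ hx' heq
    simp only [coe_sigma, Set.mem_sigma_iff, mem_coe] at hx hx'
    obtain ⟨hp, hv⟩ := hx
    obtain ⟨hp', hv'⟩ := hx'
    simp only [Sigma.mk.injEq, heq_eq_eq] at heq
    obtain ⟨rfl, h5⟩ := heq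
    have h2 := ho1 p hp v hv
    have h3 := ho2 p hp v hv
    have h2' := ho1 p' hp' v hv'
    unfold at_ at hv h2 hv' h2'
    rw [mem_filter] at hv h2 hv' h2'
    have h6 : p = p' := by
      refine huniq p p' v (opp p v) ?_ hv.2 h2.2 hv'.2 ?_
      · intro h4
        apply h3
        rw [← h4]
      · rw [h5]; exact h2'.2
    rw [h6]

/-- there is a colouring whose graph is locally dense. -/
theorem exists_coloring (q : ℕ) (hq : q ^ 16 < 2 ^ q) (hq0 : 0 < q)
    (hP : Fintype.card P ≤ q ^ 3) (hV : Fintype.card V ≤ q ^ 4)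
    (hline : ∀ v, (univ.filter (fun p => inc p v)).card = q + 1)
    (huniq : ∀ (p p' : P) (v w : V), v ≠ w → inc p v → inc p w → inc p' v → inc p' w → p = p') :
    ∃ c : P → V → Bool, ∀ X : Finset V, X.card = 8 * q ^ 2 →
      4 * q ^ 3 ≤ degSum (colG inc c) X := by
  classical
  by_contra hcon
  push Not at hcon
  set T := Fintype.card (P → V → Bool) with hT
  have hTpos : 0 < T := Fintype.card_pos
  -- cover of all colourings
  set Xs := powersetCard (8 * q ^ 2) (univ : Finset V) with hXs
  set M : Finset V → Finset P → Finset (P → V → Bool) := fun X F =>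
    ((univ : Finset (P → V → Bool)).filter (fun c => ∀ p ∈ F, ∀ v ∈ at_ inc X p,
      ∀ w ∈ at_ inc X p, c p v = c p w)) with hM
  set Fs : Finset V → Finset (Finset P) := fun X =>
    (univ : Finset P).powerset.filter (fun F => 4 * q ^ 3 ≤ ∑ p ∈ F, (at_ inc X p).card) with hFs
  have hcover : (univ : Finset (P → V → Bool)) ⊆ Xs.biUnion (fun X => (Fs X).biUnion (fun F => M X F)) := by
    intro c _
    obtain ⟨X, hX, hd⟩ := hcon c
    rw [mem_biUnion]
    refine ⟨X, by rw [hXs, mem_powersetCard]; exact ⟨subset_univ _, hX⟩, ?_⟩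
    rw [mem_biUnion]
    refine ⟨monoSet inc c X, ?_, ?_⟩
    · rw [hFs, mem_filter]
      refine ⟨mem_powerset.2 (subset_univ _), ?_⟩
      have h1 := deg_lower inc huniq c X
      have h2 := sum_at inc X q hline
      rw [← sum_sdiff (subset_univ (monoSet inc c X)), hX] at h2
      have h3 : (q + 1) * (8 * q ^ 2) = 8 * q ^ 3 + 8 * q ^ 2 := by ring
      rw [h3] at h2
      omega
    · rw [hM, mem_filter]
      refine ⟨mem_univ _, ?_⟩
      intro p hp
      unfold monoSet at hp
      simpa only [mem_filter, mem_univ, true_and] using hp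
  have hbX : ∀ X, ((Fs X).biUnion (fun F => M X F)).card * 2 ^ (2 * q ^ 3) ≤ T := by
    intro X
    have h1 : ∀ F ∈ Fs X, (M X F).card * 2 ^ (4 * q ^ 3) ≤ 2 ^ (q ^ 3) * T := by
      intro F hF
      rw [hFs, mem_filter] at hF
      calc (M X F).card * 2 ^ (4 * q ^ 3) ≤ (M X F).card * 2 ^ (∑ p ∈ F, (at_ inc X p).card) :=
            Nat.mul_le_mul_left _ (Nat.pow_le_pow_right (by norm_num) hF.2)
        _ ≤ 2 ^ F.card * T := card_monoF inc X F
        _ ≤ 2 ^ (q ^ 3) * T := by
            refine Nat.mul_le_mul_right _ (Nat.pow_le_pow_right (by norm_num) ?_)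
            exact (card_le_univ F).trans hP
    have h2 : ((Fs X).biUnion (fun F => M X F)).card * 2 ^ (4 * q ^ 3) ≤
        (2 ^ (q ^ 3)) * (2 ^ (q ^ 3) * T) := by
      calc _ ≤ (∑ F ∈ Fs X, (M X F).card) * 2 ^ (4 * q ^ 3) :=
            Nat.mul_le_mul_right _ card_biUnion_le
        _ = ∑ F ∈ Fs X, (M X F).card * 2 ^ (4 * q ^ 3) := sum_mul _ _ _
        _ ≤ ∑ F ∈ Fs X, 2 ^ (q ^ 3) * T := sum_le_sum h1
        _ = (Fs X).card * (2 ^ (q ^ 3) * T) := by rw [sum_const, smul_eq_mul]
        _ ≤ _ := by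
            refine Nat.mul_le_mul_right _ ?_
            rw [hFs]
            refine (card_filter_le _ _).trans ?_
            rw [card_powerset, card_univ]
            exact Nat.pow_le_pow_right (by norm_num) hP
    have h3 : (2 ^ (q ^ 3)) * (2 ^ (q ^ 3) * T) = 2 ^ (2 * q ^ 3) * T := by
      rw [← mul_assoc, ← pow_add, ← two_mul]
    have h4 : 2 ^ (4 * q ^ 3) = 2 ^ (2 * q ^ 3) * 2 ^ (2 * q ^ 3) := by
      rw [← pow_add]; congr 1; ring
    rw [h3, h4, ← mul_assoc, mul_comm (2 ^ (2 * q ^ 3)) T] at h2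
    exact Nat.le_of_mul_le_mul_right h2 (by positivity)
  have hfin : T * 2 ^ (2 * q ^ 3) ≤ (q ^ 4) ^ (8 * q ^ 2) * T := by
    calc T * 2 ^ (2 * q ^ 3) ≤
        (Xs.biUnion (fun X => (Fs X).biUnion (fun F => M X F))).card * 2 ^ (2 * q ^ 3) := by
          refine Nat.mul_le_mul_right _ ?_
          rw [hT, ← card_univ]
          exact card_le_card hcover
      _ ≤ (∑ X ∈ Xs, ((Fs X).biUnion (fun F => M X F)).card) * 2 ^ (2 * q ^ 3) :=
          Nat.mul_le_mul_right _ card_biUnion_le
      _ = ∑ X ∈ Xs, ((Fs X).biUnion (fun F => M X F)).card * 2 ^ (2 * q ^ 3) := sum_mul _ _ _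
      _ ≤ ∑ X ∈ Xs, T := sum_le_sum fun X _ => hbX X
      _ = Xs.card * T := by rw [sum_const, smul_eq_mul]
      _ ≤ _ := by
          refine Nat.mul_le_mul_right _ ?_
          rw [hXs, card_powersetCard, card_univ]
          exact (Nat.choose_le_pow _ _).trans (Nat.pow_le_pow_left hV _)
  have hlt : (q ^ 4) ^ (8 * q ^ 2) < 2 ^ (2 * q ^ 3) := by
    calc (q ^ 4) ^ (8 * q ^ 2) = (q ^ 16) ^ (2 * q ^ 2) := by
          rw [← pow_mul, ← pow_mul]; congr 1; ring
      _ < (2 ^ q) ^ (2 * q ^ 2) := Nat.pow_lt_pow_left hq (by positivity)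
      _ = 2 ^ (2 * q ^ 3) := by rw [← pow_mul]; congr 1; ring
  have := Nat.mul_lt_mul_of_pos_right hlt hTpos
  rw [mul_comm T] at hfin
  omega

end

end Pool.Agent.Helper67.MV
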