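import Pool.Agent.Helper67.MV.Color

set_option autoImplicit false

namespace Pool.Agent.Helper67.MV

open Finset

section
variable {V : Type} [Fintype V] [DecidableEq V] (G : SimpleGraph V)

open Classical in
/-- degree of `v` into `A` -/
noncomputable def dg (A : Finset V) (v : V) : ℕ := (A.filter (fun w => G.Adj v w)).card

lemma degSum_eq (A : Finset V) : degSum G A = ∑ v ∈ A, dg G A v := rfl

lemma dg_erase (A : Finset V) (u v : V) (hu : u ∈ A) [Decidable (G.Adj v u)] :
    dg G A v = dg G (A.erase u) v + if G.Adj v u then 1 else 0 := by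
  classical
  unfold dg
  rw [filter_erase]
  by_cases h : G.Adj v u
  · have h1 : u ∈ A.filter (fun w => G.Adj v w) := mem_filter.2 ⟨hu, h⟩
    have := card_erase_of_mem h1
    have h2 := card_pos.2 ⟨u, h1⟩
    rw [if_pos h, this]
    omega
  · rw [if_neg h, erase_eq_of_notMem]
    · rfl
    · intro h1; exact h (mem_filter.1 h1).2

lemma degSum_erase (A : Finset V) (u : V) (hu : u ∈ A) :
    degSum G A = degSum G (A.erase u) + 2 * dg G A u := by
  classical
  rw [degSum_eq, degSum_eq, ← add_sum_erase _ _ hu]
  have h1 : ∀ v ∈ A.erase u, dg G A v = dg G (A.erase u) v + if G.Adj v u then 1 else 0 :=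
    fun v _ => dg_erase G A u v hu
  rw [sum_congr rfl h1, sum_add_distrib, ← card_filter]
  have h2 : ((A.erase u).filter (fun v => G.Adj v u)).card = dg G A u := by
    unfold dg
    congr 1
    ext v
    simp only [mem_filter, mem_erase]
    constructor
    · rintro ⟨⟨_, h3⟩, h4⟩; exact ⟨h3, h4.symm⟩
    · rintro ⟨h3, h4⟩; exact ⟨⟨h4.ne', h3⟩, h4.symm⟩
  rw [h2]
  ring

/-- local density passes to larger sets. -/
lemma density_up (R D : ℕ) (hR : 2 ≤ R)
    (hD : ∀ X : Finset V, X.card = R → D ≤ degSum G X) (k : ℕ) :
    ∀ A : Finset V, A.card = R + k → D * ((R + k) * (R + k - 1)) ≤ R * (R - 1) * degSum G A := by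
  induction k with
  | zero =>
    intro A hA
    rw [add_zero] at *
    calc D * (R * (R - 1)) = R * (R - 1) * D := by ring
      _ ≤ _ := Nat.mul_le_mul_left _ (hD A hA)
  | succ k ih =>
    intro A hA
    have h1 : ∑ u ∈ A, degSum G (A.erase u) + 2 * degSum G A = (R + k + 1) * degSum G A := by
      have h2 : ∑ u ∈ A, degSum G A = ∑ u ∈ A, (degSum G (A.erase u) + 2 * dg G A u) :=
        sum_congr rfl fun u hu => degSum_erase G A u hu
      rw [sum_const, sum_add_distrib, ← mul_sum, ← degSum_eq, hA, smul_eq_mul] at h2
      rw [← h2]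
      ring
    have h3 : ∀ u ∈ A, D * ((R + k) * (R + k - 1)) ≤ R * (R - 1) * degSum G (A.erase u) := by
      intro u hu
      apply ih
      rw [card_erase_of_mem hu, hA]
      omega
    have h4 := sum_le_sum h3
    rw [sum_const, ← mul_sum, hA, smul_eq_mul] at h4
    obtain ⟨m, hm⟩ : ∃ m, R + k = m + 2 := ⟨R + k - 2, by omega⟩
    have e1 : R + (k + 1) = m + 3 := by omega
    rw [e1] at h4 ⊢
    rw [hm] at h1 h4
    have h5 : ∑ u ∈ A, degSum G (A.erase u) = (m + 1) * degSum G A := by
      have : (m + 2 + 1) * degSum G A = (m + 1) * degSum G A + 2 * degSum G A := by ring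
      omega
    rw [h5] at h4
    have e2 : m + 2 - 1 = m + 1 := by omega
    have e3 : m + 3 - 1 = m + 2 := by omega
    rw [e2] at h4
    rw [e3]
    have h6 : (m + 1) * (D * ((m + 3) * (m + 2))) ≤ (m + 1) * (R * (R - 1) * degSum G A) := by
      calc (m + 1) * (D * ((m + 3) * (m + 2))) = (m + 3) * (D * ((m + 2) * (m + 1))) := by ring
        _ ≤ R * (R - 1) * ((m + 1) * degSum G A) := h4
        _ = _ := by ring
    exact Nat.le_of_mul_le_mul_left h6 (by omega)

/-- a vertex of large degree. -/
lemma exists_large_degree (R D : ℕ) (hR : 2 ≤ R)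
    (hD : ∀ X : Finset V, X.card = R → D ≤ degSum G X) (A : Finset V) (hA : R ≤ A.card) :
    ∃ v ∈ A, D * A.card ≤ R * R * dg G A v := by
  classical
  obtain ⟨k, hk⟩ : ∃ k, A.card = R + k := ⟨A.card - R, by omega⟩
  have h1 := density_up G R D hR hD k A hk
  rw [← hk] at h1
  have hne : A.Nonempty := card_pos.1 (by omega)
  obtain ⟨v, hv, hmax⟩ := exists_max_image A (fun v => dg G A v) hne
  refine ⟨v, hv, ?_⟩
  have h2 : degSum G A ≤ A.card * dg G A v := by
    rw [degSum_eq]
    calc _ ≤ ∑ u ∈ A, dg G A v := sum_le_sum fun u hu => hmax u hu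
      _ = _ := by rw [sum_const, smul_eq_mul]
  have h3 : D * (A.card - 1) ≤ R * (R - 1) * dg G A v := by
    have h4 : A.card * (D * (A.card - 1)) ≤ A.card * (R * (R - 1) * dg G A v) := by
      calc A.card * (D * (A.card - 1)) = D * (A.card * (A.card - 1)) := by ring
        _ ≤ R * (R - 1) * degSum G A := h1
        _ ≤ R * (R - 1) * (A.card * dg G A v) := Nat.mul_le_mul_left _ h2
        _ = _ := by ring
    exact Nat.le_of_mul_le_mul_left h4 (card_pos.2 hne)
  -- (a - 1) / (R - 1) ≥ a / R
  set a := A.card with ha
  set d := dg G A v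
  obtain ⟨s, rfl⟩ : ∃ s, R = s + 2 := ⟨R - 2, by omega⟩
  obtain ⟨b, hb⟩ : ∃ b, a = s + 2 + b := ⟨a - (s + 2), by omega⟩
  rw [hb] at h3 ⊢
  have e1 : s + 2 + b - 1 = s + 1 + b := by omega
  have e2 : s + 2 - 1 = s + 1 := by omega
  rw [e1, e2] at h3
  have h5 : (s + 1) * (D * (s + 2 + b)) ≤ (s + 1) * ((s + 2) * (s + 2) * d) := by
    calc (s + 1) * (D * (s + 2 + b)) ≤ (s + 2) * (D * (s + 1 + b)) := by nlinarith [Nat.zero_le (D * b)]
      _ ≤ (s + 2) * ((s + 2) * (s + 1) * d) := Nat.mul_le_mul_left _ h3
      _ = _ := by ring
  exact Nat.le_of_mul_le_mul_left h5 (by omega)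

/-- independent `t`-subsets of `A` -/
noncomputable def indep (A : Finset V) (t : ℕ) : Finset (Finset V) := by
  classical
  exact (powersetCard t A).filter (fun I => G.IsIndepSet (I : Set V))

lemma indep_card_le (A : Finset V) (t R : ℕ) (hA : A.card ≤ R) : (indep G A t).card ≤ R.choose t := by
  classical
  unfold indep
  refine (card_filter_le _ _).trans ?_
  rw [card_powersetCard]
  exact Nat.choose_le_choose t hA

open Classical in
/-- the vertices of `A` different from `v` and not adjacent to it. -/
noncomputable def rest (A : Finset V) (v : V) : Finset V := (A.erase v).filter (fun w => ¬ G.Adj v w)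

lemma indep_step (A : Finset V) (t : ℕ) (v : V) (hv : v ∈ A) :
    (indep G A (t + 1)).card ≤ (indep G (A.erase v) (t + 1)).card +
      (indep G (rest G A v) t).card := by
  classical
  have h1 : indep G A (t + 1) ⊆ indep G (A.erase v) (t + 1) ∪
      (indep G (rest G A v) t).image (insert v) := by
    intro I hI
    unfold indep at hI
    rw [mem_filter, mem_powersetCard] at hI
    obtain ⟨⟨hIA, hIc⟩, hind⟩ := hI
    rw [mem_union]
    by_cases hvI : v ∈ I
    · right
      rw [mem_image]
      refine ⟨I.erase v, ?_, insert_erase hvI⟩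
      unfold indep
      rw [mem_filter, mem_powersetCard]
      refine ⟨⟨?_, ?_⟩, ?_⟩
      · intro w hw
        rw [mem_erase] at hw
        unfold rest
        rw [mem_filter, mem_erase]
        refine ⟨⟨hw.1, hIA hw.2⟩, ?_⟩
        exact hind (by simpa using hvI) (by simpa using hw.2) hw.1.symm
      · rw [card_erase_of_mem hvI, hIc]; omega
      · intro a ha b hb hab
        refine hind ?_ ?_ hab
        · simp only [coe_erase, Set.mem_diff] at ha; exact ha.1
        · simp only [coe_erase, Set.mem_diff] at hb; exact hb.1
    · left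
      unfold indep
      rw [mem_filter, mem_powersetCard]
      refine ⟨⟨?_, hIc⟩, hind⟩
      intro w hw
      rw [mem_erase]
      refine ⟨?_, hIA hw⟩
      rintro rfl
      exact hvI hw
  refine (card_le_card h1).trans ((card_union_le _ _).trans ?_)
  exact Nat.add_le_add_left card_image_le _

/-- the container bound for the number of independent sets. -/
lemma container (R D : ℕ) (hR : 2 ≤ R)
    (hD : ∀ X : Finset V, X.card = R → D ≤ degSum G X) (κ : ℝ) (hκ0 : 0 ≤ κ)
    (hκ : (1 - κ) * (R * R) ≤ D) (r : ℕ) :
    ∀ (A : Finset V) (t : ℕ), r ≤ t → (A.card : ℝ) * κ ^ r ≤ R →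
      (indep G A t).card ≤ ∑ j ∈ range (r + 1), (Fintype.card V) ^ j * R.choose (t - j) := by
  classical
  induction r with
  | zero =>
    intro A t _ hA
    rw [pow_zero, mul_one] at hA
    simp only [zero_add, range_one, sum_singleton, pow_zero, one_mul, Nat.sub_zero]
    exact indep_card_le G A t R (by exact_mod_cast hA)
  | succ r ih =>
    intro A t ht hA
    obtain ⟨s, rfl⟩ : ∃ s, t = s + 1 := ⟨t - 1, by omega⟩
    set S := ∑ j ∈ range (r + 1), (Fintype.card V) ^ j * R.choose (s - j) with hS
    have hsum : ∑ j ∈ range (r + 1 + 1), (Fintype.card V) ^ j * R.choose (s + 1 - j) =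
        Fintype.card V * S + R.choose (s + 1) := by
      rw [sum_range_succ', hS, mul_sum]
      congr 1
      · refine sum_congr rfl fun j _ => ?_
        have : s + 1 - (j + 1) = s - j := by omega
        rw [this, pow_succ]
        ring
      · simp
    rw [hsum]
    have hmain : ∀ (n : ℕ) (A : Finset V), A.card = n → (A.card : ℝ) * κ ^ (r + 1) ≤ R →
        (indep G A (s + 1)).card ≤ n * S + R.choose (s + 1) := by
      intro n
      induction n with
      | zero =>
        intro A hA0 _
        rw [zero_mul, zero_add]
        exact indep_card_le G A _ R (by omega)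
      | succ n ihn =>
        intro A hAn hAκ
        by_cases hAR : A.card ≤ R
        · exact (indep_card_le G A _ R hAR).trans (Nat.le_add_left _ _)
        · push Not at hAR
          obtain ⟨v, hv, hdeg⟩ := exists_large_degree G R D hR hD A hAR.le
          have h1 := indep_step G A s v hv
          have hκn : 0 ≤ κ ^ (r + 1) := pow_nonneg hκ0 _
          have h2 := ihn (A.erase v) (by rw [card_erase_of_mem hv, hAn]; rfl) (by
            refine le_trans ?_ hAκ
            refine mul_le_mul_of_nonneg_right ?_ hκn
            exact_mod_cast card_le_card (erase_subset _ _))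
          have h3 : ((rest G A v).card : ℝ) ≤ κ * A.card := by
            have h4 : (rest G A v).card + dg G A v ≤ A.card := by
              have h5 := card_filter_add_card_filter_not (s := A) (fun w => G.Adj v w)
              have h6 : (rest G A v).card ≤
                  (A.filter (fun w => ¬ G.Adj v w)).card :=
                card_le_card (filter_subset_filter _ (erase_subset _ _))
              unfold dg
              have h7 : (A.filter (fun w => G.Adj v w)).card + (A.filter (fun w => ¬ G.Adj v w)).card =
                A.card := h5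
              omega
            have h4' : ((rest G A v).card : ℝ) + dg G A v ≤ A.card := by
              exact_mod_cast h4
            have hdeg' : (D : ℝ) * A.card ≤ R * R * dg G A v := by exact_mod_cast hdeg
            have hRpos : (0 : ℝ) < R * R := by
              have : (0 : ℝ) < R := by exact_mod_cast (by omega : 0 < R)
              positivity
            have h8 : (1 - κ) * A.card ≤ dg G A v := by
              have h9 : (1 - κ) * A.card * (R * R) ≤ dg G A v * (R * R) := by
                calc (1 - κ) * A.card * (R * R) = (1 - κ) * (R * R) * A.card := by ring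
                  _ ≤ D * A.card := mul_le_mul_of_nonneg_right hκ (Nat.cast_nonneg _)
                  _ ≤ R * R * dg G A v := hdeg'
                  _ = _ := by ring
              exact le_of_mul_le_mul_right h9 hRpos
            linarith
          have h4 := ih (rest G A v) s (by omega) (by
            calc _ ≤ κ * A.card * κ ^ r := mul_le_mul_of_nonneg_right h3 (pow_nonneg hκ0 _)
              _ = A.card * κ ^ (r + 1) := by ring
              _ ≤ R := hAκ)
          calc _ ≤ _ := h1
            _ ≤ (n * S + R.choose (s + 1)) + S := Nat.add_le_add h2 h4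
            _ = _ := by ring
    refine (hmain A.card A rfl hA).trans ?_
    exact Nat.add_le_add_right (Nat.mul_le_mul_right _ (card_le_univ A)) _

end

end Pool.Agent.Helper67.MV
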