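import Pool.Agent.Helper67.MV.Unital

set_option autoImplicit false

namespace Pool.Agent.Helper67.MV

variable {K : Type} [Field K] [Fintype K] {q : ℕ}

/-- points of the (affine part of the) Hermitian unital. -/
def Pt (K : Type) [Field K] (q : ℕ) : Type := {xy : K × K // xy.2 ^ q + xy.2 = xy.1 ^ (q + 1)}

/-- secant lines `y = a x + b`. -/
def Ln (K : Type) [Field K] (q : ℕ) : Type := {ab : K × K // ab.1 ^ (q + 1) + ab.2 ^ q + ab.2 ≠ 0}

/-- incidence -/
def Inc (p : Pt K q) (l : Ln K q) : Prop := p.1.2 = l.1.1 * p.1.1 + l.1.2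

noncomputable instance : Fintype (Pt K q) := by
  classical
  unfold Pt; infer_instance

noncomputable instance : Fintype (Ln K q) := by
  classical
  unfold Ln; infer_instance

lemma card_Pt_le (h : Herm K q) : Fintype.card (Pt K q) ≤ q ^ 3 := by
  classical
  have h1 : Fintype.card (Pt K q) =
      (Finset.univ.filter (fun xy : K × K => xy.2 ^ q + xy.2 = xy.1 ^ (q + 1))).card := by
    unfold Pt
    rw [← Fintype.card_subtype]
  rw [h1]
  have h2 : (Finset.univ.filter (fun xy : K × K => xy.2 ^ q + xy.2 = xy.1 ^ (q + 1))) =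
      (Finset.univ.sigma (fun x : K => Finset.univ.filter
        (fun y : K => y ^ q + y = x ^ (q + 1)))).map
        (Equiv.sigmaEquivProd K K).toEmbedding := by
    ext ⟨x, y⟩
    simp
  rw [h2, Finset.card_map, Finset.card_sigma]
  calc _ ≤ ∑ x : K, q := Finset.sum_le_sum fun x _ => h.card_trace_le _
    _ = q ^ 3 := by
      rw [Finset.sum_const, Finset.card_univ, h.card, smul_eq_mul]; ring

lemma card_Ln_le (h : Herm K q) : Fintype.card (Ln K q) ≤ q ^ 4 := by
  classical
  unfold Ln
  refine (Fintype.card_subtype_le _).trans ?_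
  rw [Fintype.card_prod, h.card]
  exact le_of_eq (by ring)

lemma card_Ln_ge (h : Herm K q) : q ^ 4 ≤ 2 * Fintype.card (Ln K q) := by
  classical
  have hq := h.two_le
  have h1 : Fintype.card (Ln K q) =
      (Finset.univ.filter (fun ab : K × K => ab.1 ^ (q + 1) + ab.2 ^ q + ab.2 ≠ 0)).card := by
    unfold Ln
    rw [← Fintype.card_subtype]
  have h3 := Finset.card_filter_add_card_filter_not (s := (Finset.univ : Finset (K × K)))
    (fun ab : K × K => ab.1 ^ (q + 1) + ab.2 ^ q + ab.2 ≠ 0)
  have h4 : (Finset.univ.filter (fun ab : K × K => ¬ (ab.1 ^ (q + 1) + ab.2 ^ q + ab.2 ≠ 0))).card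
      ≤ q ^ 3 := by
    have h2 : (Finset.univ.filter (fun ab : K × K => ¬ (ab.1 ^ (q + 1) + ab.2 ^ q + ab.2 ≠ 0))) =
        (Finset.univ.sigma (fun x : K => Finset.univ.filter
          (fun y : K => y ^ q + y = - x ^ (q + 1)))).map
          (Equiv.sigmaEquivProd K K).toEmbedding := by
      ext ⟨x, y⟩
      simp only [ne_eq, not_not, Finset.mem_filter, Finset.mem_univ, true_and, Finset.mem_map,
        Finset.mem_sigma, Equiv.coe_toEmbedding, Sigma.exists, Equiv.sigmaEquivProd_apply,
        Prod.mk.injEq]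
      constructor
      · intro h0
        exact ⟨x, y, by linear_combination h0, rfl, rfl⟩
      · rintro ⟨x', y', h0, rfl, rfl⟩
        linear_combination h0
    rw [h2, Finset.card_map, Finset.card_sigma]
    calc _ ≤ ∑ x : K, q := Finset.sum_le_sum fun x _ => h.card_trace_le _
      _ = q ^ 3 := by
        rw [Finset.sum_const, Finset.card_univ, h.card, smul_eq_mul]; ring
  rw [Finset.card_univ, Fintype.card_prod, h.card] at h3
  rw [h1]
  have h5 : 2 * q ^ 3 ≤ q ^ 4 := by
    calc 2 * q ^ 3 ≤ q * q ^ 3 := Nat.mul_le_mul_right _ hq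
      _ = q ^ 4 := by ring
  have h6 : q ^ 2 * q ^ 2 = q ^ 4 := by ring
  omega

/-- each secant line has exactly `q + 1` points. -/
lemma card_inc (h : Herm K q) (l : Ln K q) [DecidablePred fun p : Pt K q => Inc p l] :
    (Finset.univ.filter (fun p : Pt K q => Inc p l)).card = q + 1 := by
  classical
  obtain ⟨⟨a, b⟩, hl⟩ := l
  simp only at hl
  set c := a ^ (q + 1) + b ^ q + b with hc
  have hcq : c ^ q = c := by
    rw [hc, h.add, h.add, h.pow_q_q, pow_succ, mul_pow, h.pow_q_q]
    ring
  refine Eq.trans ?_ (h.card_norm c hl hcq)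
  refine Finset.card_bij' (fun p _ => p.1.1 - a ^ q)
    (fun z _ => if hz : z ^ (q + 1) = c then (⟨(z + a ^ q, a * (z + a ^ q) + b), ?_⟩ : Pt K q)
      else ⟨(0, 0), by simp [h.zero]⟩) ?_ ?_ ?_ ?_
  · have e1 : (a * (z + a ^ q) + b) ^ q = a ^ q * (z ^ q + a) + b ^ q := by
      rw [h.add, mul_pow, h.add, h.pow_q_q]
    have e2 : (z + a ^ q) ^ (q + 1) = (z ^ q + a) * (z + a ^ q) := by
      rw [pow_succ, h.add, h.pow_q_q]
    simp only
    rw [e1, e2]
    have e3 : z ^ q * z = c := by rw [← pow_succ]; exact hz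
    rw [hc, pow_succ] at e3
    linear_combination -e3
  · intro p hp
    simp only [Finset.mem_filter, Finset.mem_univ, true_and, Inc] at hp ⊢
    have e1 := p.2
    have e4 : p.1.2 ^ q = a ^ q * p.1.1 ^ q + b ^ q := by rw [hp, h.add, mul_pow]
    have e2 : (p.1.1 - a ^ q) ^ (q + 1) = (p.1.1 ^ q - a) * (p.1.1 - a ^ q) := by
      rw [pow_succ, h.sub, h.pow_q_q]
    rw [e2, hc, pow_succ]
    rw [e4, hp, pow_succ] at e1
    linear_combination -e1
  · intro z hz
    simp only [Finset.mem_filter, Finset.mem_univ, true_and, Inc] at hz ⊢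
    rw [dif_pos hz]
  · intro p hp
    simp only [Finset.mem_filter, Finset.mem_univ, true_and, Inc] at hp
    have hz : (p.1.1 - a ^ q) ^ (q + 1) = c := by
      have e1 := p.2
      have e4 : p.1.2 ^ q = a ^ q * p.1.1 ^ q + b ^ q := by rw [hp, h.add, mul_pow]
      have e2 : (p.1.1 - a ^ q) ^ (q + 1) = (p.1.1 ^ q - a) * (p.1.1 - a ^ q) := by
        rw [pow_succ, h.sub, h.pow_q_q]
      rw [e2, hc, pow_succ]
      rw [e4, hp, pow_succ] at e1
      linear_combination -e1
    simp only [dif_pos hz]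
    apply Subtype.ext
    apply Prod.ext
    · simp
    · simp [hp]
  · intro z hz
    simp only [Finset.mem_filter, Finset.mem_univ, true_and] at hz
    simp only [dif_pos hz]
    ring

/-- two distinct lines meet in at most one point. -/
lemma inc_unique (p p' : Pt K q) (l l' : Ln K q) (hll : l ≠ l') (h1 : Inc p l) (h2 : Inc p l')
    (h3 : Inc p' l) (h4 : Inc p' l') : p = p' := by
  unfold Inc at *
  have ha : l.1.1 ≠ l'.1.1 := by
    intro ha
    apply hll
    apply Subtype.ext
    apply Prod.ext ha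
    rw [ha] at h1
    rw [h2] at h1
    exact (add_left_cancel h1).symm
  have hx : p.1.1 = p'.1.1 := by
    have e : (l.1.1 - l'.1.1) * (p.1.1 - p'.1.1) = 0 := by
      linear_combination h2 - h1 - h4 + h3
    rcases mul_eq_zero.1 e with e | e
    · exact absurd (sub_eq_zero.1 e) ha
    · exact sub_eq_zero.1 e
  apply Subtype.ext
  apply Prod.ext hx
  rw [h1, h3, hx]

end Pool.Agent.Helper67.MV
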