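import Pool.Agent.Helper67.MV.Inc

set_option autoImplicit false

namespace Pool.Agent.Helper67.MV

variable {K : Type} [Field K] {q : ℕ}

/-- the Gram entry -/
def gg (l l' : Ln K q) : K := l.1.1 * l'.1.1 ^ q + l.1.2 + l'.1.2 ^ q

lemma gg_self_ne (l : Ln K q) : gg l l ≠ 0 := by
  have := l.2
  unfold gg
  intro h0
  apply this
  rw [pow_succ]
  linear_combination h0

variable [Fintype K]

lemma gg_meet (h : Herm K q) (p : Pt K q) (l l' : Ln K q) (h1 : Inc p l) (h2 : Inc p l') :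
    gg l l' = (l.1.1 - p.1.1 ^ q) * (l'.1.1 ^ q - p.1.1) := by
  unfold Inc at *
  have h3 : p.1.2 ^ q = l'.1.1 ^ q * p.1.1 ^ q + l'.1.2 ^ q := by
    rw [h2, h.add, mul_pow]
  have h4 := p.2
  rw [pow_succ] at h4
  unfold gg
  linear_combination h4 - h1 - h3

lemma gg_mul (h : Herm K q) (p : Pt K q) (l l' : Ln K q) (h1 : Inc p l) (h2 : Inc p l') :
    gg l l' * gg l' l = gg l l * gg l' l' := by
  rw [gg_meet h p l l' h1 h2, gg_meet h p l' l h2 h1, gg_meet h p l l h1 h1,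
    gg_meet h p l' l' h2 h2]
  ring

/-- three pairwise meeting lines with dependent poles are concurrent. -/
lemma concurrent (h : Herm K q) (l1 l2 l3 : Ln K q) (h12 : l1 ≠ l2)
    (p12 p23 p13 : Pt K q) (i1 : Inc p12 l1) (i2 : Inc p12 l2) (i3 : Inc p23 l2)
    (i4 : Inc p23 l3) (i5 : Inc p13 l1) (i6 : Inc p13 l3)
    (hT : gg l1 l2 * gg l2 l3 = gg l1 l3 * gg l2 l2) : Inc p12 l3 := by
  have e12 := gg_mul h p12 l1 l2 i1 i2
  have e23 := gg_mul h p23 l2 l3 i3 i4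
  have e13 := gg_mul h p13 l1 l3 i5 i6
  have n1 := gg_self_ne l1
  have n2 := gg_self_ne l2
  have n3 := gg_self_ne l3
  have hdet : gg l1 l1 * gg l2 l2 * gg l3 l3 + gg l1 l2 * gg l2 l3 * gg l3 l1 +
      gg l1 l3 * gg l3 l2 * gg l2 l1 - gg l1 l1 * (gg l2 l3 * gg l3 l2) -
      gg l2 l2 * (gg l1 l3 * gg l3 l1) - gg l3 l3 * (gg l1 l2 * gg l2 l1) = 0 := by
    apply mul_left_cancel₀ n2
    rw [mul_zero]
    generalize gg l1 l1 = d1 at *
    generalize gg l2 l2 = d2 at *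
    generalize gg l3 l3 = d3 at *
    generalize gg l1 l2 = g12 at *
    generalize gg l2 l1 = g21 at *
    generalize gg l1 l3 = g13 at *
    generalize gg l3 l1 = g31 at *
    generalize gg l2 l3 = g23 at *
    generalize gg l3 l2 = g32 at *
    linear_combination (d2 * g31 - g32 * g21) * hT + g23 * g32 * e12 + (d1 * d2 - d2 * d1) * e23
      - d2 * d3 * e12
  set a1 := l1.1.1
  set a2 := l2.1.1
  set a3 := l3.1.1
  set b1 := l1.1.2
  set b2 := l2.1.2
  set b3 := l3.1.2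
  have hD : (a1 * (b2 - b3) - a2 * (b1 - b3) + a3 * (b1 - b2)) *
      (a1 ^ q * (b2 ^ q - b3 ^ q) - a2 ^ q * (b1 ^ q - b3 ^ q) + a3 ^ q * (b1 ^ q - b2 ^ q)) = 0 := by
    unfold gg at hdet
    linear_combination -hdet
  have hconj : (a1 * (b2 - b3) - a2 * (b1 - b3) + a3 * (b1 - b2)) ^ q =
      (a1 ^ q * (b2 ^ q - b3 ^ q) - a2 ^ q * (b1 ^ q - b3 ^ q) + a3 ^ q * (b1 ^ q - b2 ^ q)) := by
    rw [h.add, h.sub, mul_pow, mul_pow, mul_pow, h.sub, h.sub, h.sub]
  rw [← hconj] at hD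
  have hD0 : a1 * (b2 - b3) - a2 * (b1 - b3) + a3 * (b1 - b2) = 0 := by
    rcases mul_eq_zero.1 hD with h0 | h0
    · exact h0
    · exact pow_eq_zero_iff (by have := h.two_le; omega) |>.1 h0
  have ha : a1 ≠ a2 := by
    intro ha
    apply h12
    apply Subtype.ext
    apply Prod.ext ha
    unfold Inc at i1 i2
    have : l1.1.1 = l2.1.1 := ha
    rw [this] at i1
    rw [i2] at i1
    exact (add_left_cancel i1).symm
  unfold Inc at *
  have h7 : (a1 - a2) * (p12.1.2 - (a3 * p12.1.1 + b3)) = 0 := by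
    linear_combination hD0 + (a1 - a3) * i2 - (a2 - a3) * i1
  rcases mul_eq_zero.1 h7 with h8 | h8
  · exact absurd (sub_eq_zero.1 h8) ha
  · exact sub_eq_zero.1 h8

omit [Fintype K] in
lemma det_key (d1 d2 d3 d4 g12 g13 g14 g23 g24 g34 g21 g31 g41 g32 g42 g43 : K)
    (n1 : d1 ≠ 0) (n2 : d2 ≠ 0) (n3 : d3 ≠ 0) (n4 : d4 ≠ 0)
    (e12 : g12 * g21 = d1 * d2) (e13 : g13 * g31 = d1 * d3) (e14 : g14 * g41 = d1 * d4)
    (e23 : g23 * g32 = d2 * d3) (e24 : g24 * g42 = d2 * d4) (e34 : g34 * g43 = d3 * d4)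
    (hdet : (Matrix.of ![![d1, g12, g13, g14], ![g21, d2, g23, g24],
      ![g31, g32, d3, g34], ![g41, g42, g43, d4]]).det = 0) :
    (g12 * g23 - g13 * d2) * (g13 * g34 - g14 * d3) * (g14 * d2 - g12 * g24) *
      (g23 * g34 - g24 * d3) = 0 := by
  have m12 : g12 ≠ 0 := fun h0 => by rw [h0, zero_mul] at e12; exact (mul_ne_zero n1 n2) e12.symm
  have m13 : g13 ≠ 0 := fun h0 => by rw [h0, zero_mul] at e13; exact (mul_ne_zero n1 n3) e13.symm
  have m14 : g14 ≠ 0 := fun h0 => by rw [h0, zero_mul] at e14; exact (mul_ne_zero n1 n4) e14.symm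
  have m23 : g23 ≠ 0 := fun h0 => by rw [h0, zero_mul] at e23; exact (mul_ne_zero n2 n3) e23.symm
  have m24 : g24 ≠ 0 := fun h0 => by rw [h0, zero_mul] at e24; exact (mul_ne_zero n2 n4) e24.symm
  have m34 : g34 ≠ 0 := fun h0 => by rw [h0, zero_mul] at e34; exact (mul_ne_zero n3 n4) e34.symm
  have f12 : g21 = d1 * d2 / g12 := by rw [eq_div_iff m12, mul_comm]; exact e12
  have f13 : g31 = d1 * d3 / g13 := by rw [eq_div_iff m13, mul_comm]; exact e13
  have f14 : g41 = d1 * d4 / g14 := by rw [eq_div_iff m14, mul_comm]; exact e14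
  have f23 : g32 = d2 * d3 / g23 := by rw [eq_div_iff m23, mul_comm]; exact e23
  have f24 : g42 = d2 * d4 / g24 := by rw [eq_div_iff m24, mul_comm]; exact e24
  have f34 : g43 = d3 * d4 / g34 := by rw [eq_div_iff m34, mul_comm]; exact e34
  have hmain : g12 * g13 * g14 * g23 * g24 * g34 *
      (Matrix.of ![![d1, g12, g13, g14], ![g21, d2, g23, g24],
      ![g31, g32, d3, g34], ![g41, g42, g43, d4]]).det =
      d1 * d4 * ((g12 * g23 - g13 * d2) * (g13 * g34 - g14 * d3) * (g14 * d2 - g12 * g24) *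
      (g23 * g34 - g24 * d3)) := by
    rw [Matrix.det_succ_row_zero]
    simp [Fin.sum_univ_succ, Matrix.det_fin_three, Fin.succAbove]
    rw [f12, f13, f14, f23, f24, f34]
    field_simp
    ring
  rw [hdet, mul_zero] at hmain
  rcases mul_eq_zero.1 hmain.symm with h0 | h0
  · exact absurd h0 (mul_ne_zero n1 n4)
  · exact h0

/-- The Hermitian unital has no O'Nan configuration: among four pairwise meeting secants three are
concurrent. -/
theorem onan (h : Herm K q) (l1 l2 l3 l4 : Ln K q) (n12 : l1 ≠ l2) (n13 : l1 ≠ l3)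
    (n23 : l2 ≠ l3)
    (p12 p13 p14 p23 p24 p34 : Pt K q) (a12 : Inc p12 l1) (b12 : Inc p12 l2)
    (a13 : Inc p13 l1) (b13 : Inc p13 l3) (a14 : Inc p14 l1) (b14 : Inc p14 l4)
    (a23 : Inc p23 l2) (b23 : Inc p23 l3) (a24 : Inc p24 l2) (b24 : Inc p24 l4)
    (a34 : Inc p34 l3) (b34 : Inc p34 l4) :
    Inc p12 l3 ∨ Inc p13 l4 ∨ Inc p12 l4 ∨ Inc p23 l4 := by
  have e12 := gg_mul h p12 l1 l2 a12 b12
  have e13 := gg_mul h p13 l1 l3 a13 b13
  have e14 := gg_mul h p14 l1 l4 a14 b14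
  have e23 := gg_mul h p23 l2 l3 a23 b23
  have e24 := gg_mul h p24 l2 l4 a24 b24
  have e34 := gg_mul h p34 l3 l4 a34 b34
  have n1 := gg_self_ne l1
  have n2 := gg_self_ne l2
  have n3 := gg_self_ne l3
  have n4 := gg_self_ne l4
  have hdet : (Matrix.of ![![gg l1 l1, gg l1 l2, gg l1 l3, gg l1 l4],
      ![gg l2 l1, gg l2 l2, gg l2 l3, gg l2 l4],
      ![gg l3 l1, gg l3 l2, gg l3 l3, gg l3 l4],
      ![gg l4 l1, gg l4 l2, gg l4 l3, gg l4 l4]]).det = 0 := by
    unfold gg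
    rw [Matrix.det_succ_row_zero]
    simp [Fin.sum_univ_succ, Matrix.det_fin_three, Fin.succAbove]
    ring
  have key := det_key _ _ _ _ _ _ _ _ _ _ _ _ _ _ _ _ n1 n2 n3 n4 e12 e13 e14 e23 e24 e34 hdet
  rcases mul_eq_zero.1 key with key | k4
  · rcases mul_eq_zero.1 key with key | k3
    · rcases mul_eq_zero.1 key with k1 | k2
      · left
        exact concurrent h l1 l2 l3 n12 p12 p23 p13 a12 b12 a23 b23 a13 b13 (sub_eq_zero.1 k1)
      · right; left
        exact concurrent h l1 l3 l4 n13 p13 p34 p14 a13 b13 a34 b34 a14 b14 (sub_eq_zero.1 k2)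
    · right; right; left
      exact concurrent h l1 l2 l4 n12 p12 p24 p14 a12 b12 a24 b24 a14 b14 (sub_eq_zero.1 k3).symm
  · right; right; right
    exact concurrent h l2 l3 l4 n23 p23 p34 p24 a23 b23 a34 b34 a24 b24 (sub_eq_zero.1 k4)

end Pool.Agent.Helper67.MV
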