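import Pool.Agent.Helper67.MV.Color
import Pool.Agent.Helper67.MV.ONan

set_option autoImplicit false

namespace Pool.Agent.Helper67.MV

open Finset

section
variable {V P : Type} (inc : P → V → Prop)

lemma no_three (huniq : ∀ (p p' : P) (v w : V), v ≠ w → inc p v → inc p w → inc p' v → inc p' w →
      p = p') (c : P → V → Bool) (a b d : V) (p : P) (ha : inc p a) (hb : inc p b) (hd : inc p d)
    (hab : (colG inc c).Adj a b) (had : (colG inc c).Adj a d) (hbd : (colG inc c).Adj b d) : False := by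
  obtain ⟨n1, p1, i1, j1, k1⟩ := hab
  obtain ⟨n2, p2, i2, j2, k2⟩ := had
  obtain ⟨n3, p3, i3, j3, k3⟩ := hbd
  have e1 := huniq p1 p a b n1 i1 j1 ha hb
  have e2 := huniq p2 p a d n2 i2 j2 ha hd
  have e3 := huniq p3 p b d n3 i3 j3 hb hd
  rw [e1] at k1
  rw [e2] at k2
  rw [e3] at k3
  revert k1 k2 k3
  generalize c p a = x
  generalize c p b = y
  generalize c p d = z
  revert x y z
  decide

end

variable {K : Type} [Field K] [Fintype K] {q : ℕ}

theorem colG_cliqueFree (h : Herm K q) (c : Pt K q → Ln K q → Bool) :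
    (colG (Inc (K := K) (q := q)) c).CliqueFree 4 := by
  classical
  by_contra hcon
  obtain ⟨f⟩ := SimpleGraph.topEmbeddingOfNotCliqueFree hcon |> Nonempty.intro
  have hadj : ∀ i j : Fin 4, i ≠ j → (colG (Inc (K := K) (q := q)) c).Adj (f i) (f j) := by
    intro i j hij
    exact f.map_rel_iff.2 (by simpa using hij)
  have hu : ∀ (p p' : Pt K q) (v w : Ln K q), v ≠ w → Inc p v → Inc p w → Inc p' v → Inc p' w →
      p = p' := fun p p' v w n a b c d => inc_unique p p' v w n a b c d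
  obtain ⟨n01, p01, a01, b01, -⟩ := hadj 0 1 (by decide)
  obtain ⟨n02, p02, a02, b02, -⟩ := hadj 0 2 (by decide)
  obtain ⟨n03, p03, a03, b03, -⟩ := hadj 0 3 (by decide)
  obtain ⟨n12, p12, a12, b12, -⟩ := hadj 1 2 (by decide)
  obtain ⟨n13, p13, a13, b13, -⟩ := hadj 1 3 (by decide)
  obtain ⟨n23, p23, a23, b23, -⟩ := hadj 2 3 (by decide)
  rcases onan h (f 0) (f 1) (f 2) (f 3) n01 n02 n12 p01 p02 p03 p12 p13 p23 a01 b01 a02 b02 a03 b03
    a12 b12 a13 b13 a23 b23 with h0 | h0 | h0 | h0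
  · exact no_three _ hu c (f 0) (f 1) (f 2) p01 a01 b01 h0 (hadj _ _ (by decide))
      (hadj _ _ (by decide)) (hadj _ _ (by decide))
  · exact no_three _ hu c (f 0) (f 2) (f 3) p02 a02 b02 h0 (hadj _ _ (by decide))
      (hadj _ _ (by decide)) (hadj _ _ (by decide))
  · exact no_three _ hu c (f 0) (f 1) (f 3) p01 a01 b01 h0 (hadj _ _ (by decide))
      (hadj _ _ (by decide)) (hadj _ _ (by decide))
  · exact no_three _ hu c (f 1) (f 2) (f 3) p12 a12 b12 h0 (hadj _ _ (by decide))
      (hadj _ _ (by decide)) (hadj _ _ (by decide))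

/-- The locally dense `K₄`-free graph of Mattheus and Verstraete. -/
theorem exists_dense (p : ℕ) [hp : Fact p.Prime] (hq : p ^ 16 < 2 ^ p) :
    ∃ (V : Type) (_ : Fintype V) (_ : DecidableEq V) (G : SimpleGraph V), G.CliqueFree 4 ∧
      Fintype.card V ≤ p ^ 4 ∧ p ^ 4 ≤ 2 * Fintype.card V ∧
      ∀ X : Finset V, X.card = 8 * p ^ 2 → 4 * p ^ 3 ≤ degSum G X := by
  classical
  haveI : Fintype (GaloisField p 2) := Fintype.ofFinite _
  have h := herm_galois p
  obtain ⟨c, hc⟩ := exists_coloring (V := Ln (GaloisField p 2) p) (P := Pt (GaloisField p 2) p)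
    (inc := Inc) p hq hp.out.pos (card_Pt_le h) (card_Ln_le h) (fun v => card_inc h v)
    (fun p p' v w n a b c d => inc_unique p p' v w n a b c d)
  exact ⟨Ln (GaloisField p 2) p, inferInstance, inferInstance, colG Inc c, colG_cliqueFree h c,
    card_Ln_le h, card_Ln_ge h, hc⟩

end Pool.Agent.Helper67.MV
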