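import Pool.Agent.Helper67.MV.Sample

set_option autoImplicit false

namespace Pool.Agent.Helper67.MV

open Finset

/-- `y ^ s / s!` is tiny when `y ≤ s / 8`. -/
lemma pow_div_fact (y : ℝ) (s : ℕ) (hy0 : 0 ≤ y) (hy : y ≤ s / 8) : y ^ s / s.factorial ≤ (1 / 2) ^ s := by
  have h1 : (s : ℝ) ^ s / s.factorial ≤ Real.exp s := Real.pow_div_factorial_le_exp s (Nat.cast_nonneg s) s
  have hf : (0 : ℝ) < s.factorial := by exact_mod_cast s.factorial_pos
  calc y ^ s / s.factorial ≤ ((s : ℝ) / 8) ^ s / s.factorial := by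
        gcongr
    _ = (1 / 8) ^ s * ((s : ℝ) ^ s / s.factorial) := by rw [div_pow, one_div, inv_pow]; ring
    _ ≤ (1 / 8) ^ s * Real.exp s := by gcongr
    _ = (Real.exp 1 / 8) ^ s := by
        have h2 : Real.exp s = Real.exp 1 ^ s := by rw [← Real.exp_nat_mul, mul_one]
        rw [h2, ← mul_pow]
        congr 1
        ring
    _ ≤ (1 / 2) ^ s := by
        have := Real.exp_one_lt_d9
        exact pow_le_pow_left₀ (by positivity) (by linarith) s

/-- the numerical heart. -/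
lemma sum_lt (L R N q r t : ℕ) (hq : 2 ≤ q) (hL0 : 0 < L) (hNL : N ≤ L) (hLq : L ≤ q ^ 4)
    (hrt : 2 * r ≤ t) (hy : 16 * (R * N) ≤ t * L)
    (hbig : (r + 1 : ℝ) * (q : ℝ) ^ (4 * r) < (2 : ℝ) ^ (t / 2)) :
    (∑ j ∈ range (r + 1), L ^ j * R.choose (t - j)) * N ^ t < L ^ t := by
  have hLr : (0 : ℝ) < L := by exact_mod_cast hL0
  have hterm : ∀ j ∈ range (r + 1), ((L : ℝ) ^ j * (R.choose (t - j) : ℝ)) * ((N : ℝ) / L) ^ t ≤
      (q : ℝ) ^ (4 * r) * (1 / 2) ^ (t / 2) := by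
    intro j hj
    rw [mem_range] at hj
    obtain ⟨s, hs⟩ : ∃ s, t = s + j := ⟨t - j, by omega⟩
    have hs2 : t / 2 ≤ s := by omega
    have e1 : t - j = s := by omega
    rw [e1]
    have hyR : (R : ℝ) * N / L ≤ s / 8 := by
      rw [div_le_iff₀ hLr]
      have h1 : (16 : ℝ) * (R * N) ≤ t * L := by exact_mod_cast hy
      have h2 : (t : ℝ) ≤ 2 * s := by
        have : t ≤ 2 * s := by omega
        exact_mod_cast this
      nlinarith
    have hch : (R.choose s : ℝ) ≤ (R : ℝ) ^ s / s.factorial := Nat.choose_le_pow_div s R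
    have hNL1 : (N : ℝ) / L ≤ 1 := by
      rw [div_le_one hLr]; exact_mod_cast hNL
    calc ((L : ℝ) ^ j * (R.choose s : ℝ)) * ((N : ℝ) / L) ^ t
        ≤ ((L : ℝ) ^ j * ((R : ℝ) ^ s / s.factorial)) * ((N : ℝ) / L) ^ t := by gcongr
      _ = (N : ℝ) ^ j * (((R : ℝ) * N / L) ^ s / s.factorial) := by
          rw [hs, pow_add, div_pow, div_pow, div_pow, mul_pow]
          field_simp
      _ ≤ (N : ℝ) ^ j * (1 / 2) ^ s := by
          gcongr
          exact pow_div_fact _ s (by positivity) hyR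
      _ ≤ (q : ℝ) ^ (4 * r) * (1 / 2) ^ (t / 2) := by
          have h5 : (N : ℝ) ^ j ≤ (q : ℝ) ^ (4 * r) := by
            have h6 : N ^ j ≤ q ^ (4 * r) := by
              calc N ^ j ≤ (q ^ 4) ^ j := Nat.pow_le_pow_left (hNL.trans hLq) j
                _ ≤ (q ^ 4) ^ r := Nat.pow_le_pow_right (by positivity) (by omega)
                _ = q ^ (4 * r) := by rw [← pow_mul]
            exact_mod_cast h6
          have h7 : ((1 : ℝ) / 2) ^ s ≤ (1 / 2) ^ (t / 2) :=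
            pow_le_pow_of_le_one (by norm_num) (by norm_num) hs2
          exact mul_le_mul h5 h7 (by positivity) (by positivity)
  have hsum := sum_le_sum hterm
  rw [← sum_mul, sum_const, card_range, nsmul_eq_mul] at hsum
  have hlt : ((r + 1 : ℕ) : ℝ) * ((q : ℝ) ^ (4 * r) * (1 / 2) ^ (t / 2)) < 1 := by
    push_cast
    rw [one_div, inv_pow, ← mul_assoc, ← div_eq_mul_inv, div_lt_one (by positivity)]
    exact hbig
  have h8 : (∑ j ∈ range (r + 1), (L : ℝ) ^ j * (R.choose (t - j) : ℝ)) * ((N : ℝ) / L) ^ t < 1 :=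
    lt_of_le_of_lt hsum hlt
  rw [div_pow, ← mul_div_assoc, div_lt_one (by positivity)] at h8
  exact_mod_cast h8

/-- the main construction for a prime `q`. -/
theorem mv_prime (q : ℕ) [hp : Fact q.Prime] (hq : q ^ 16 < 2 ^ q) (r t N : ℕ)
    (hr : (q : ℝ) ^ 4 * (1 - 1 / (16 * q)) ^ r ≤ 8 * q ^ 2)
    (hrt : 2 * r ≤ t) (hN : 256 * N ≤ t * q ^ 2) (ht : t ≤ q ^ 2)
    (hbig : (r + 1 : ℝ) * (q : ℝ) ^ (4 * r) < (2 : ℝ) ^ (t / 2)) :
    ∃ H : SimpleGraph (Fin N), H.CliqueFree 4 ∧ ∀ s : Finset (Fin N), s.card = t →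
      ¬ H.IsIndepSet (s : Set (Fin N)) := by
  obtain ⟨V, _, _, G, h4, hV1, hV2, hX⟩ := exists_dense q hq
  have hq2 := hp.out.two_le
  have hqr : (2 : ℝ) ≤ q := by exact_mod_cast hq2
  set L := Fintype.card V with hL
  have hL0 : 0 < L := by
    have : 0 < q ^ 4 := by positivity
    omega
  have hNL : N ≤ L := by
    have h1 : 256 * N ≤ q ^ 4 := by
      calc 256 * N ≤ t * q ^ 2 := hN
        _ ≤ q ^ 2 * q ^ 2 := Nat.mul_le_mul_right _ ht
        _ = q ^ 4 := by ring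
    omega
  have hκ0 : (0 : ℝ) ≤ 1 - 1 / (16 * q) := by
    rw [sub_nonneg, div_le_one (by positivity)]
    linarith
  have hκ : (1 - (1 - 1 / (16 * (q : ℝ)))) * (((8 * q ^ 2 : ℕ) : ℝ) * ((8 * q ^ 2 : ℕ) : ℝ)) ≤
      ((4 * q ^ 3 : ℕ) : ℝ) := by
    push_cast
    apply le_of_eq
    field_simp
    ring
  have hR2 : 2 ≤ 8 * q ^ 2 := by nlinarith
  have hcont := container G (8 * q ^ 2) (4 * q ^ 3) hR2 hX (1 - 1 / (16 * q)) hκ0 hκ r univ t
    (by omega) (by
      rw [card_univ, ← hL]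
      push_cast
      refine le_trans ?_ hr
      refine mul_le_mul_of_nonneg_right ?_ (pow_nonneg hκ0 _)
      exact_mod_cast hV1)
  have hs := sum_lt L (8 * q ^ 2) N q r t hq2 hL0 hNL hV1 hrt (by
    calc 16 * (8 * q ^ 2 * N) = q ^ 2 * (128 * N) := by ring
      _ ≤ q ^ 2 * (t * q ^ 2 / 2) := Nat.mul_le_mul_left _ (by omega)
      _ ≤ t * q ^ 4 / 2 := by
          rw [Nat.le_div_iff_mul_le (by norm_num)]
          calc q ^ 2 * (t * q ^ 2 / 2) * 2 = q ^ 2 * (t * q ^ 2 / 2 * 2) := by ring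
            _ ≤ q ^ 2 * (t * q ^ 2) := Nat.mul_le_mul_left _ (Nat.div_mul_le_self _ _)
            _ = t * q ^ 4 := by ring
      _ ≤ t * L := by
          rw [Nat.div_le_iff_le_mul_add_pred (by norm_num)]
          calc t * q ^ 4 ≤ t * (2 * L) := Nat.mul_le_mul_left _ hV2
            _ = 2 * (t * L) := by ring
            _ ≤ _ := by omega) hbig
  obtain ⟨W, hW, hI⟩ := exists_sample G t N hNL
    (lt_of_le_of_lt (Nat.mul_le_mul_right _ hcont) hs)
  exact exists_fin G t N W hW h4 hI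

end Pool.Agent.Helper67.MV
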