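import Pool.Agent.Helper67.MV.Container
import Pool.Agent.Helper67.MV.K4

set_option autoImplicit false

namespace Pool.Agent.Helper67.MV

open Finset

lemma choose_ratio (L N : ℕ) (hN : N ≤ L) (t : ℕ) (ht : t ≤ N) :
    (L - t).choose (N - t) * L ^ t ≤ L.choose N * N ^ t := by
  induction t with
  | zero => simp
  | succ t ih =>
    have ih' := ih (by omega)
    obtain ⟨a, ha⟩ : ∃ a, L - t = a + 1 := ⟨L - t - 1, by omega⟩
    obtain ⟨b, hb⟩ : ∃ b, N - t = b + 1 := ⟨N - t - 1, by omega⟩
    have ea : L - (t + 1) = a := by omega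
    have eb : N - (t + 1) = b := by omega
    rw [ha, hb] at ih'
    rw [ea, eb]
    have h1 := Nat.add_one_mul_choose_eq a b
    have h2 : L * (b + 1) ≤ N * (a + 1) := by
      have : L = a + 1 + t := by omega
      have : N = b + 1 + t := by omega
      have : b ≤ a := by omega
      subst_vars
      nlinarith
    have h3 : (a.choose b * L ^ (t + 1)) * (a + 1) ≤ (L.choose N * N ^ (t + 1)) * (a + 1) := by
      calc (a.choose b * L ^ (t + 1)) * (a + 1) = ((a + 1) * a.choose b) * L ^ t * L := by ring
        _ = ((a + 1).choose (b + 1) * (b + 1)) * L ^ t * L := by rw [h1]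
        _ = ((a + 1).choose (b + 1) * L ^ t) * (L * (b + 1)) := by ring
        _ ≤ (L.choose N * N ^ t) * (N * (a + 1)) := Nat.mul_le_mul ih' h2
        _ = _ := by ring
    exact Nat.le_of_mul_le_mul_right h3 (by omega)

section
variable {V : Type} [Fintype V] [DecidableEq V] (G : SimpleGraph V)

/-- random sampling: few independent sets give a subset without any of them. -/
theorem exists_sample (t N : ℕ) (hN : N ≤ Fintype.card V)
    (hfew : (indep G univ t).card * N ^ t < Fintype.card V ^ t) :
    ∃ W : Finset V, W.card = N ∧ ∀ I : Finset V, I ⊆ W → I.card = t → ¬ G.IsIndepSet (I : Set V) := by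
  classical
  by_contra hcon
  push Not at hcon
  set L := Fintype.card V with hL
  have ht : t ≤ N := by
    obtain ⟨W, hW⟩ : ∃ W : Finset V, W.card = N := by
      obtain ⟨W, _, hW⟩ := exists_subset_card_eq (s := (univ : Finset V)) (n := N) (by simpa using hN)
      exact ⟨W, hW⟩
    obtain ⟨I, hI, hIc, _⟩ := hcon W hW
    rw [← hIc, ← hW]
    exact card_le_card hI
  have hcover : powersetCard N (univ : Finset V) ⊆ (indep G univ t).biUnion
      (fun I => (powersetCard (N - t) (univ \ I)).image (fun J => J ∪ I)) := by
    intro W hW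
    rw [mem_powersetCard] at hW
    obtain ⟨I, hI, hIc, hind⟩ := hcon W hW.2
    rw [mem_biUnion]
    refine ⟨I, ?_, ?_⟩
    · unfold indep
      rw [mem_filter, mem_powersetCard]
      exact ⟨⟨subset_univ _, hIc⟩, hind⟩
    · rw [mem_image]
      refine ⟨W \ I, ?_, ?_⟩
      · rw [mem_powersetCard]
        refine ⟨sdiff_subset_sdiff (subset_univ _) (Subset.refl _), ?_⟩
        rw [card_sdiff_of_subset hI, hW.2, hIc]
      · exact sdiff_union_of_subset hI
  have h1 := card_le_card hcover
  rw [card_powersetCard, card_univ] at h1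
  have h2 : ((indep G univ t).biUnion
      (fun I => (powersetCard (N - t) (univ \ I)).image (fun J => J ∪ I))).card ≤
      (indep G univ t).card * (L - t).choose (N - t) := by
    refine card_biUnion_le.trans ?_
    calc _ ≤ ∑ I ∈ indep G univ t, (L - t).choose (N - t) := by
          refine sum_le_sum fun I hI => ?_
          unfold indep at hI
          rw [mem_filter, mem_powersetCard] at hI
          refine card_image_le.trans ?_
          rw [card_powersetCard, card_sdiff_of_subset (subset_univ _), card_univ, hI.1.2]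
      _ = _ := by rw [sum_const, smul_eq_mul]
  have h3 := choose_ratio L N hN t ht
  have h4 : L.choose N * L ^ t ≤ (indep G univ t).card * N ^ t * L.choose N := by
    calc L.choose N * L ^ t ≤ (indep G univ t).card * (L - t).choose (N - t) * L ^ t :=
          Nat.mul_le_mul_right _ (h1.trans h2)
      _ = (indep G univ t).card * ((L - t).choose (N - t) * L ^ t) := by ring
      _ ≤ (indep G univ t).card * (L.choose N * N ^ t) := Nat.mul_le_mul_left _ h3
      _ = _ := by ring
  have h5 : (indep G univ t).card * N ^ t * L.choose N < L ^ t * L.choose N :=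
    Nat.mul_lt_mul_of_pos_right hfew (Nat.choose_pos hN)
  rw [mul_comm (L ^ t)] at h5
  omega

/-- pass to a graph on `Fin N`. -/
theorem exists_fin (t N : ℕ) (W : Finset V) (hW : W.card = N) (h4 : G.CliqueFree 4)
    (hI : ∀ I : Finset V, I ⊆ W → I.card = t → ¬ G.IsIndepSet (I : Set V)) :
    ∃ H : SimpleGraph (Fin N), H.CliqueFree 4 ∧ ∀ s : Finset (Fin N), s.card = t →
      ¬ H.IsIndepSet (s : Set (Fin N)) := by
  classical
  have e : Fin N ≃ W := (Fintype.equivFinOfCardEq (by simpa using hW)).symm
  set f : Fin N ↪ V := e.toEmbedding.trans (Function.Embedding.subtype _) with hf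
  refine ⟨G.comap f, ?_, ?_⟩
  · exact h4.comap ⟨(SimpleGraph.Embedding.comap f G).toCopy⟩
  · intro s hs hind
    refine hI (s.map f) ?_ ?_ ?_
    · intro x hx
      rw [mem_map] at hx
      obtain ⟨y, _, rfl⟩ := hx
      exact (e y).2
    · rw [card_map]; exact hs
    · intro a ha b hb hab
      simp only [coe_map, Set.mem_image, mem_coe] at ha hb
      obtain ⟨x, hx, rfl⟩ := ha
      obtain ⟨y, hy, rfl⟩ := hb
      exact hind hx hy (fun hxy => hab (by rw [hxy]))

end

end Pool.Agent.Helper67.MV
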