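import Mathlib

set_option autoImplicit false

namespace Pool.Agent.Helper67.MV

/-- the Hermitian data: a finite field with an involution `x ↦ x ^ q`. -/
structure Herm (K : Type) [Field K] [Fintype K] (q : ℕ) : Prop where
  two_le : 2 ≤ q
  card : Fintype.card K = q ^ 2
  add : ∀ x y : K, (x + y) ^ q = x ^ q + y ^ q

variable {K : Type} [Field K] [Fintype K] {q : ℕ}

/-- existence for a prime. -/
lemma herm_galois (p : ℕ) [hp : Fact p.Prime] [Fintype (GaloisField p 2)] :
    Herm (GaloisField p 2) p := by
  refine ⟨hp.out.two_le, ?_, ?_⟩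
  · have := GaloisField.card p 2 (by norm_num)
    rwa [Nat.card_eq_fintype_card] at this
  · intro x y
    exact add_pow_char x y p

namespace Herm

lemma pow_q_q (h : Herm K q) (x : K) : (x ^ q) ^ q = x := by
  rw [← pow_mul, ← sq, ← h.card]
  exact FiniteField.pow_card x

lemma zero (h : Herm K q) : (0 : K) ^ q = 0 := by
  have := h.two_le
  exact zero_pow (by omega)

lemma neg (h : Herm K q) (x : K) : (-x) ^ q = -(x ^ q) := by
  have h1 := h.add x (-x)
  rw [add_neg_cancel, h.zero] at h1
  exact (neg_eq_of_add_eq_zero_right h1.symm).symm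

lemma sub (h : Herm K q) (x y : K) : (x - y) ^ q = x ^ q - y ^ q := by
  rw [sub_eq_add_neg, h.add, h.neg, ← sub_eq_add_neg]

open Polynomial in
/-- at most `n` solutions of `y ^ n = c` type equations through polynomials of degree `n`. -/
lemma card_roots_le (P : K[X]) (hP : P ≠ 0) (n : ℕ) (hn : P.natDegree ≤ n) [DecidableEq K] :
    (Finset.univ.filter (fun y : K => P.eval y = 0)).card ≤ n := by
  have h1 : (Finset.univ.filter (fun y : K => P.eval y = 0)) ⊆ P.roots.toFinset := by
    intro y hy
    simp only [Finset.mem_filter, Finset.mem_univ, true_and] at hy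
    rw [Multiset.mem_toFinset, mem_roots hP]
    exact hy
  calc _ ≤ P.roots.toFinset.card := Finset.card_le_card h1
    _ ≤ Multiset.card P.roots := Multiset.toFinset_card_le _
    _ ≤ P.natDegree := P.card_roots'
    _ ≤ n := hn

open Polynomial in
lemma card_trace_le (h : Herm K q) (c : K) [DecidableEq K] :
    (Finset.univ.filter (fun y : K => y ^ q + y = c)).card ≤ q := by
  have hq := h.two_le
  have hdeg : (X ^ q + X - C c : K[X]).natDegree = q := by
    have h1 : (X ^ q + X - C c : K[X]) = X ^ q + (X - C c) := by ring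
    rw [h1, natDegree_add_eq_left_of_natDegree_lt]
    · exact natDegree_X_pow q
    · rw [natDegree_X_sub_C, natDegree_X_pow]; omega
  have hne : (X ^ q + X - C c : K[X]) ≠ 0 := by
    intro h0
    rw [h0, natDegree_zero] at hdeg
    omega
  have := card_roots_le (X ^ q + X - C c : K[X]) hne q hdeg.le
  refine le_trans (Finset.card_le_card ?_) this
  intro y hy
  simp only [Finset.mem_filter, Finset.mem_univ, true_and] at hy ⊢
  simp [hy]

open Polynomial in
lemma card_norm_le (h : Herm K q) (c : K) [DecidableEq K] :
    (Finset.univ.filter (fun y : K => y ^ (q + 1) = c)).card ≤ q + 1 := by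
  have hdeg : (X ^ (q + 1) - C c : K[X]).natDegree = q + 1 := natDegree_X_pow_sub_C
  have hne : (X ^ (q + 1) - C c : K[X]) ≠ 0 := by
    intro h0
    rw [h0, natDegree_zero] at hdeg
    omega
  have := card_roots_le (X ^ (q + 1) - C c : K[X]) hne (q + 1) hdeg.le
  refine le_trans (Finset.card_le_card ?_) this
  intro y hy
  simp only [Finset.mem_filter, Finset.mem_univ, true_and] at hy ⊢
  simp [hy]

open Polynomial in
lemma card_fix_le (h : Herm K q) [DecidableEq K] :
    (Finset.univ.filter (fun y : K => y ^ q = y)).card ≤ q := by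
  have hq := h.two_le
  have hdeg : (X ^ q - X : K[X]).natDegree = q := by
    rw [natDegree_sub_eq_left_of_natDegree_lt]
    · exact natDegree_X_pow q
    · rw [natDegree_X, natDegree_X_pow]; omega
  have hne : (X ^ q - X : K[X]) ≠ 0 := by
    intro h0
    rw [h0, natDegree_zero] at hdeg
    omega
  have := card_roots_le (X ^ q - X : K[X]) hne q hdeg.le
  refine le_trans (Finset.card_le_card ?_) this
  intro y hy
  simp only [Finset.mem_filter, Finset.mem_univ, true_and] at hy ⊢
  simp [hy]

/-- the norm equation has exactly `q + 1` solutions. -/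
lemma card_norm (h : Herm K q) (c : K) (hc : c ≠ 0) (hcq : c ^ q = c) [DecidableEq K] :
    (Finset.univ.filter (fun y : K => y ^ (q + 1) = c)).card = q + 1 := by
  have hq := h.two_le
  refine le_antisymm (h.card_norm_le c) ?_
  set F := (Finset.univ.filter (fun y : K => y ^ q = y)).erase 0 with hF
  have hFc : F.card ≤ q - 1 := by
    rw [hF, Finset.card_erase_of_mem]
    · have := h.card_fix_le; omega
    · simp [h.zero]
  have hcF : c ∈ F := by simp [hF, hc, hcq]
  have hmaps : ∀ y ∈ (Finset.univ : Finset K).erase 0, y ^ (q + 1) ∈ F := by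
    intro y hy
    have hy0 : y ≠ 0 := (Finset.mem_erase.1 hy).1
    rw [hF, Finset.mem_erase]
    refine ⟨pow_ne_zero _ hy0, ?_⟩
    simp only [Finset.mem_filter, Finset.mem_univ, true_and]
    rw [pow_succ, mul_pow, h.pow_q_q, mul_comm]
  have hsum := Finset.card_eq_sum_card_fiberwise hmaps
  have hcard : ((Finset.univ : Finset K).erase 0).card = q ^ 2 - 1 := by
    rw [Finset.card_erase_of_mem (Finset.mem_univ _), Finset.card_univ, h.card]
  rw [hcard, ← Finset.add_sum_erase _ _ hcF] at hsum
  have hle : ∑ x ∈ F.erase c, ((((Finset.univ : Finset K).erase 0)).filter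
      (fun y => y ^ (q + 1) = x)).card ≤ (q - 2) * (q + 1) := by
    calc _ ≤ ∑ x ∈ F.erase c, (q + 1) := by
          refine Finset.sum_le_sum fun x _ => ?_
          refine le_trans (Finset.card_le_card ?_) (h.card_norm_le x)
          exact Finset.filter_subset_filter _ (Finset.erase_subset _ _)
      _ = (F.erase c).card * (q + 1) := by rw [Finset.sum_const, smul_eq_mul]
      _ ≤ _ := by
          refine Nat.mul_le_mul_right _ ?_
          rw [Finset.card_erase_of_mem hcF]; omega
  have hle2 : ((((Finset.univ : Finset K).erase 0)).filter (fun y => y ^ (q + 1) = c)).card ≤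
      (Finset.univ.filter (fun y : K => y ^ (q + 1) = c)).card :=
    Finset.card_le_card (Finset.filter_subset_filter _ (Finset.erase_subset _ _))
  obtain ⟨k, rfl⟩ : ∃ k, q = k + 2 := ⟨q - 2, by omega⟩
  have e1 : (k + 2) ^ 2 - 1 = (k + 2 - 2) * (k + 2 + 1) + (k + 2 + 1) := by
    have : (k + 2) ^ 2 = k * (k + 3) + (k + 3) + 1 := by ring
    rw [this]
    simp
  omega

end Herm

end Pool.Agent.Helper67.MV
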